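import Mathlib

/-!
# MP_d1ccd0_al : the monotone catenary degree of conductor submonoids can be infinite

We show that for the monomial ideal `I = (z², x²z, y²z, xy)` of the free abelian monoid
`F = ℕ³` (written additively) the conductor submonoid `H = {0} ∪ I` has infinite monotone
catenary degree.
-/

namespace Pool.Agent.Results.MP_d1ccd0_al.MonotoneCatenary

section Defs

variable {F : Type} [AddCommMonoid F] [DecidableEq F]

/-- `H` is a conductor submonoid of the (additively written) reduced monoid `F`: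
`a + F ⊆ H` for every `a ∈ H` that is not invertible, i.e. `a ≠ 0`. -/
def IsConductor (H : AddSubmonoid F) : Prop := ∀ a ∈ H, a ≠ 0 → ∀ f : F, a + f ∈ H

/-- The atoms of the (reduced) monoid `H`. -/
def Atom (H : AddSubmonoid F) (a : F) : Prop :=
  a ∈ H ∧ a ≠ 0 ∧ ∀ b ∈ H, ∀ c ∈ H, a = b + c → b = 0 ∨ c = 0

/-- The set `Z(a)` of factorizations of `a`: finite multisets of atoms with sum `a`. -/
def Z (H : AddSubmonoid F) (a : F) : Set (Multiset F) :=
  {z | (∀ x ∈ z, Atom H x) ∧ z.sum = a}

/-- The distance `d(z,z') = max(|g⁻¹z|, |g⁻¹z'|)`, `g = gcd(z,z')`. -/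
def dist (z z' : Multiset F) : ℕ := max (z - z ∩ z').card (z' - z ∩ z').card

/-- `z` and `z'` are joined by a monotone `N`-chain in `Z(a)`. -/
def MonotoneChain (H : AddSubmonoid F) (a : F) (N : ℕ∞) (z z' : Multiset F) : Prop :=
  ∃ (r : ℕ) (s : ℕ → Multiset F), s 0 = z ∧ s r = z' ∧ (∀ i ≤ r, s i ∈ Z H a) ∧
    (∀ i < r, (dist (s i) (s (i + 1)) : ℕ∞) ≤ N) ∧
    ((∀ i < r, (s i).card ≤ (s (i + 1)).card) ∨ (∀ i < r, (s (i + 1)).card ≤ (s i).card))

/-- `c_eq(a)`: the least `N ∈ ℕ ∪ {∞}` such that any two factorizations of `a` of the same length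
are joined by a monotone `N`-chain. -/
noncomputable def cEqAt (H : AddSubmonoid F) (a : F) : ℕ∞ :=
  sInf {N : ℕ∞ | ∀ z ∈ Z H a, ∀ z' ∈ Z H a, z.card = z'.card → MonotoneChain H a N z z'}

/-- `c_eq(H)`. -/
noncomputable def cEq (H : AddSubmonoid F) : ℕ∞ := ⨆ a ∈ H, cEqAt H a

/-- The set `Z_k(a)` of factorizations of length `k`. -/
def Zk (H : AddSubmonoid F) (a : F) (k : ℕ) : Set (Multiset F) := {z ∈ Z H a | z.card = k}

/-- The set of lengths `L(a)`. -/
def L (H : AddSubmonoid F) (a : F) : Set ℕ := {k | (Zk H a k).Nonempty}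

/-- `k < l` are adjacent lengths of `a`. -/
def Adjacent (H : AddSubmonoid F) (a : F) (k l : ℕ) : Prop :=
  k ∈ L H a ∧ l ∈ L H a ∧ k < l ∧ ∀ m ∈ L H a, ¬ (k < m ∧ m < l)

/-- `c_adj(a)`. -/
noncomputable def cAdjAt (H : AddSubmonoid F) (a : F) : ℕ∞ :=
  sSup {d : ℕ∞ | ∃ k l, Adjacent H a k l ∧
    d = ((sInf {e : ℕ | ∃ z ∈ Zk H a k, ∃ z' ∈ Zk H a l, e = dist z z'} : ℕ) : ℕ∞)}

/-- `c_adj(H)`. -/
noncomputable def cAdj (H : AddSubmonoid F) : ℕ∞ := ⨆ a ∈ H, cAdjAt H a

/-- The monotone catenary degree `c_mon(H) = sup {c_eq(H), c_adj(H)}`. -/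
noncomputable def cMon (H : AddSubmonoid F) : ℕ∞ := max (cEq H) (cAdj H)

end Defs

/-- the ideal `(z², x²z, y²z, xy)` of `ℕ³` -/
def InI (v : Fin 3 → ℕ) : Prop :=
  2 ≤ v 2 ∨ (2 ≤ v 0 ∧ 1 ≤ v 2) ∨ (2 ≤ v 1 ∧ 1 ≤ v 2) ∨ (1 ≤ v 0 ∧ 1 ≤ v 1)

/-- the conductor submonoid -/
def HH : AddSubmonoid (Fin 3 → ℕ) where
  carrier := {v | v = 0 ∨ InI v}
  zero_mem' := Or.inl rfl
  add_mem' := by
    rintro a b (rfl | ha) (rfl | hb)
    · left; simp
    · right; simpa using hb
    · right; simpa using ha
    · right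
      unfold InI at *
      simp only [Pi.add_apply]
      omega

lemma mem_HH {v : Fin 3 → ℕ} : v ∈ HH ↔ v = 0 ∨ InI v := Iff.rfl

lemma ne_zero_of_InI {v : Fin 3 → ℕ} (h : InI v) : v ≠ 0 := by
  rintro rfl
  simp [InI] at h

lemma mem_of_InI {v : Fin 3 → ℕ} (h : InI v) : v ∈ HH := Or.inr h

lemma conductor : IsConductor HH := by
  intro a ha ha0 f
  rcases ha with h | h
  · exact absurd h ha0
  · right
    unfold InI at *
    simp only [Pi.add_apply]
    omega

/-- a splitting of an element into two elements of `I` contradicts being an atom -/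
lemma not_atom {x : Fin 3 → ℕ} (b c : Fin 3 → ℕ) (hb : InI b) (hc : InI c) (h0 : x 0 = b 0 + c 0)
    (h1 : x 1 = b 1 + c 1) (h2 : x 2 = b 2 + c 2) : ¬ Atom HH x := by
  rintro ⟨-, -, h⟩
  have hx : x = b + c := by
    ext i; fin_cases i
    · exact h0
    · exact h1
    · exact h2
  rcases h b (mem_of_InI hb) c (mem_of_InI hc) hx with h | h
  · exact ne_zero_of_InI hb h
  · exact ne_zero_of_InI hc h

lemma atom_le_three {x : Fin 3 → ℕ} (hx : Atom HH x) : x 2 ≤ 3 := by
  by_contra h
  push Not at h
  refine not_atom ![0, 0, 2] ![x 0, x 1, x 2 - 2] ?_ ?_ ?_ ?_ ?_ hx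
  · simp [InI]
  · simp only [InI, Matrix.cons_val_zero, Matrix.cons_val_one, Matrix.cons_val]; omega
  · simp
  · simp
  · simp only [Matrix.cons_val]; omega

lemma atom_three {x : Fin 3 → ℕ} (hx : Atom HH x) (h : x 2 = 3) : x 0 + x 1 ≤ 1 := by
  by_contra h'
  push Not at h'
  by_cases h0 : 2 ≤ x 0
  · refine not_atom ![2, 0, 1] ![x 0 - 2, x 1, x 2 - 1] ?_ ?_ ?_ ?_ ?_ hx
    · simp [InI]
    · simp only [InI, Matrix.cons_val_zero, Matrix.cons_val_one, Matrix.cons_val]; omega
    · simp only [Matrix.cons_val_zero]; omega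
    · simp
    · simp only [Matrix.cons_val]; omega
  · by_cases h1 : 2 ≤ x 1
    · refine not_atom ![0, 2, 1] ![x 0, x 1 - 2, x 2 - 1] ?_ ?_ ?_ ?_ ?_ hx
      · simp [InI]
      · simp only [InI, Matrix.cons_val_zero, Matrix.cons_val_one, Matrix.cons_val]; omega
      · simp
      · simp only [Matrix.cons_val_one, Matrix.cons_val_zero]; omega
      · simp only [Matrix.cons_val]; omega
    · refine not_atom ![1, 1, 0] ![x 0 - 1, x 1 - 1, x 2] ?_ ?_ ?_ ?_ ?_ hx
      · simp [InI]
      · simp only [InI, Matrix.cons_val_zero, Matrix.cons_val_one, Matrix.cons_val]; omega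
      · simp only [Matrix.cons_val_zero]; omega
      · simp only [Matrix.cons_val_one, Matrix.cons_val_zero]; omega
      · simp

lemma atom_two {x : Fin 3 → ℕ} (hx : Atom HH x) (h : x 2 = 2) : x 0 + x 1 ≤ 3 := by
  by_contra h'
  push Not at h'
  by_cases h0 : 1 ≤ x 0
  · by_cases h1 : 1 ≤ x 1
    · refine not_atom ![1, 1, 0] ![x 0 - 1, x 1 - 1, x 2] ?_ ?_ ?_ ?_ ?_ hx
      · simp [InI]
      · simp only [InI, Matrix.cons_val_zero, Matrix.cons_val_one, Matrix.cons_val]; omega
      · simp only [Matrix.cons_val_zero]; omega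
      · simp only [Matrix.cons_val_one, Matrix.cons_val_zero]; omega
      · simp
    · refine not_atom ![2, 0, 1] ![x 0 - 2, x 1, x 2 - 1] ?_ ?_ ?_ ?_ ?_ hx
      · simp [InI]
      · simp only [InI, Matrix.cons_val_zero, Matrix.cons_val_one, Matrix.cons_val]; omega
      · simp only [Matrix.cons_val_zero]; omega
      · simp
      · simp only [Matrix.cons_val]; omega
  · refine not_atom ![0, 2, 1] ![x 0, x 1 - 2, x 2 - 1] ?_ ?_ ?_ ?_ ?_ hx
    · simp [InI]
    · simp only [InI, Matrix.cons_val_zero, Matrix.cons_val_one, Matrix.cons_val]; omega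
    · simp
    · simp only [Matrix.cons_val_one, Matrix.cons_val_zero]; omega
    · simp only [Matrix.cons_val]; omega

lemma atom_one {x : Fin 3 → ℕ} (hx : Atom HH x) (h : x 2 = 1) (h0 : 1 ≤ x 0) (h1 : 1 ≤ x 1) :
    x 0 + x 1 ≤ 3 := by
  by_contra h'
  push Not at h'
  refine not_atom ![1, 1, 0] ![x 0 - 1, x 1 - 1, x 2] ?_ ?_ ?_ ?_ ?_ hx
  · simp [InI]
  · simp only [InI, Matrix.cons_val_zero, Matrix.cons_val_one, Matrix.cons_val]; omega
  · simp only [Matrix.cons_val_zero]; omega
  · simp only [Matrix.cons_val_one, Matrix.cons_val_zero]; omega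
  · simp

/-- the atoms used -/
def A1 (k : ℕ) : Fin 3 → ℕ := ![k, 0, 1]
/-- the atoms used -/
def A2 (k : ℕ) : Fin 3 → ℕ := ![0, k, 1]
/-- the atoms used -/
def B1 : Fin 3 → ℕ := ![0, 1, 3]
/-- the atoms used -/
def B2 : Fin 3 → ℕ := ![1, 0, 3]

lemma atom_of {x : Fin 3 → ℕ} (hx : InI x)
    (h : ∀ b c : Fin 3 → ℕ, InI b → InI c → x 0 = b 0 + c 0 → x 1 = b 1 + c 1 →
      x 2 = b 2 + c 2 → False) : Atom HH x := by
  refine ⟨mem_of_InI hx, ne_zero_of_InI hx, fun b hb c hc hbc => ?_⟩
  rcases hb with hb | hb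
  · exact Or.inl hb
  · rcases hc with hc | hc
    · exact Or.inr hc
    · exact (h b c hb hc (by rw [hbc]; rfl) (by rw [hbc]; rfl) (by rw [hbc]; rfl)).elim

lemma atom_A1 {k : ℕ} (hk : 2 ≤ k) : Atom HH (A1 k) := by
  apply atom_of
  · simp only [InI, A1, Matrix.cons_val_zero, Matrix.cons_val_one, Matrix.cons_val]; omega
  · intro b c hb hc h0 h1 h2
    simp only [InI, A1, Matrix.cons_val_zero, Matrix.cons_val_one, Matrix.cons_val] at *
    omega

lemma atom_A2 {k : ℕ} (hk : 2 ≤ k) : Atom HH (A2 k) := by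
  apply atom_of
  · simp only [InI, A2, Matrix.cons_val_zero, Matrix.cons_val_one, Matrix.cons_val]; omega
  · intro b c hb hc h0 h1 h2
    simp only [InI, A2, Matrix.cons_val_zero, Matrix.cons_val_one, Matrix.cons_val] at *
    omega

lemma atom_B1 : Atom HH B1 := by
  apply atom_of
  · simp only [InI, B1, Matrix.cons_val_zero, Matrix.cons_val_one, Matrix.cons_val]; omega
  · intro b c hb hc h0 h1 h2
    simp only [InI, B1, Matrix.cons_val_zero, Matrix.cons_val_one, Matrix.cons_val] at *
    omega

lemma atom_B2 : Atom HH B2 := by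
  apply atom_of
  · simp only [InI, B2, Matrix.cons_val_zero, Matrix.cons_val_one, Matrix.cons_val]; omega
  · intro b c hb hc h0 h1 h2
    simp only [InI, B2, Matrix.cons_val_zero, Matrix.cons_val_one, Matrix.cons_val] at *
    omega

/-- the element `a_k` -/
def ak (k : ℕ) : Fin 3 → ℕ := ![k, k, 3 * k + 1]
/-- the first factorization -/
def z1 (k : ℕ) : Multiset (Fin 3 → ℕ) := A1 k ::ₘ Multiset.replicate k B1
/-- the second factorization -/
def z2 (k : ℕ) : Multiset (Fin 3 → ℕ) := A2 k ::ₘ Multiset.replicate k B2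

lemma z1_mem {k : ℕ} (hk : 2 ≤ k) : z1 k ∈ Z HH (ak k) := by
  constructor
  · intro x hx
    rcases Multiset.mem_cons.1 hx with rfl | hx
    · exact atom_A1 hk
    · rw [Multiset.eq_of_mem_replicate hx]; exact atom_B1
  · rw [z1, Multiset.sum_cons, Multiset.sum_replicate]
    ext i
    fin_cases i
    · simp [ak, A1, B1]
    · simp [ak, A1, B1]
    · simp [ak, A1, B1]; omega

lemma z2_mem {k : ℕ} (hk : 2 ≤ k) : z2 k ∈ Z HH (ak k) := by
  constructor
  · intro x hx
    rcases Multiset.mem_cons.1 hx with rfl | hx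
    · exact atom_A2 hk
    · rw [Multiset.eq_of_mem_replicate hx]; exact atom_B2
  · rw [z2, Multiset.sum_cons, Multiset.sum_replicate]
    ext i
    fin_cases i
    · simp [ak, A2, B2]
    · simp [ak, A2, B2]
    · simp [ak, A2, B2]; omega

lemma z1_card (k : ℕ) : (z1 k).card = k + 1 := by simp [z1]
lemma z2_card (k : ℕ) : (z2 k).card = k + 1 := by simp [z2]

lemma disj {k : ℕ} (hk : 1 ≤ k) : z1 k ∩ z2 k = 0 := by
  rw [Multiset.inter_eq_zero_iff_disjoint, Multiset.disjoint_left]
  intro x hx hx'
  have e1 : x = A1 k ∨ x = B1 := by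
    rcases Multiset.mem_cons.1 hx with rfl | hx
    · exact Or.inl rfl
    · exact Or.inr (Multiset.eq_of_mem_replicate hx)
  have e2 : x = A2 k ∨ x = B2 := by
    rcases Multiset.mem_cons.1 hx' with rfl | hx
    · exact Or.inl rfl
    · exact Or.inr (Multiset.eq_of_mem_replicate hx)
  rcases e1 with rfl | rfl <;> rcases e2 with h | h
  · have := congrFun h 0; simp [A1, A2] at this; omega
  · have := congrFun h 2; simp [A1, B2] at this
  · have := congrFun h 2; simp [B1, A2] at this
  · have := congrFun h 0; simp [B1, B2] at this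

lemma coord_sum (z : Multiset (Fin 3 → ℕ)) (i : Fin 3) : z.sum i = (z.map (fun v => v i)).sum := by
  induction z using Multiset.induction with
  | empty => simp
  | cons a s ih => simp [ih]

lemma sum_le_card {s : Multiset (Fin 3 → ℕ)} {f : (Fin 3 → ℕ) → ℕ} {n : ℕ}
    (h : ∀ v ∈ s, f v ≤ n) : (s.map f).sum ≤ s.card * n := by
  have := Multiset.sum_le_card_nsmul (s.map f) n (by
    intro x hx
    obtain ⟨v, hv, rfl⟩ := Multiset.mem_map.1 hx
    exact h v hv)
  simpa using this

lemma all_one {f : (Fin 3 → ℕ) → ℕ} (s : Multiset (Fin 3 → ℕ)) (h : ∀ v ∈ s, f v ≤ 1)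
    (hs : (s.map f).sum = s.card) : ∀ v ∈ s, f v = 1 := by
  induction s using Multiset.induction with
  | empty => intro v hv; simp at hv
  | cons a s ih =>
    have h1 : (s.map f).sum ≤ s.card * 1 := sum_le_card fun v hv => h v (Multiset.mem_cons_of_mem hv)
    have h2 := h a (Multiset.mem_cons_self a s)
    rw [Multiset.map_cons, Multiset.sum_cons, Multiset.card_cons] at hs
    intro v hv
    rcases Multiset.mem_cons.1 hv with rfl | hv
    · omega
    · exact ih (fun v hv => h v (Multiset.mem_cons_of_mem hv)) (by omega) v hv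

lemma sum_const {s : Multiset (Fin 3 → ℕ)} {f : (Fin 3 → ℕ) → ℕ} {n : ℕ}
    (h : ∀ v ∈ s, f v = n) : (s.map f).sum = s.card * n := by
  have : s.map f = Multiset.replicate s.card n := by
    rw [Multiset.eq_replicate]
    refine ⟨by simp, fun b hb => ?_⟩
    obtain ⟨v, hv, rfl⟩ := Multiset.mem_map.1 hb
    exact h v hv
  rw [this]; simp

/-- the key rigidity -/
lemma rigid {k : ℕ} (hk : 6 ≤ k) {z : Multiset (Fin 3 → ℕ)} (hz : z ∈ Z HH (ak k))
    (hc : z.card = k + 1) : z = z1 k ∨ z = z2 k := by
  obtain ⟨hat, hsum⟩ := hz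
  have s0 : (z.map (fun v => v 0)).sum = k := by rw [← coord_sum, hsum]; simp [ak]
  have s1 : (z.map (fun v => v 1)).sum = k := by rw [← coord_sum, hsum]; simp [ak]
  have s2 : (z.map (fun v => v 2)).sum = 3 * k + 1 := by rw [← coord_sum, hsum]; simp [ak]
  obtain ⟨z3, zr, hzz, h3, hr⟩ : ∃ z3 zr : Multiset (Fin 3 → ℕ), z = z3 + zr ∧
      (∀ v ∈ z3, v 2 = 3) ∧ (∀ v ∈ zr, v 2 ≤ 2) := by
    refine ⟨z.filter (fun v => v 2 = 3), z.filter (fun v => ¬ v 2 = 3),
      (Multiset.filter_add_not _ z).symm, fun v hv => (Multiset.mem_filter.1 hv).2, ?_⟩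
    intro v hv
    have h1 := (Multiset.mem_filter.1 hv).2
    have h2 := atom_le_three (hat v (Multiset.mem_filter.1 hv).1)
    omega
  have hat3 : ∀ v ∈ z3, Atom HH v := fun v hv => hat v (by rw [hzz]; exact Multiset.mem_add.2 (Or.inl hv))
  have hatr : ∀ v ∈ zr, Atom HH v := fun v hv => hat v (by rw [hzz]; exact Multiset.mem_add.2 (Or.inr hv))
  rw [hzz, Multiset.map_add, Multiset.sum_add] at s0 s1 s2
  rw [hzz, Multiset.card_add] at hc
  have e3 := sum_const (f := fun v => v 2) h3
  have er := sum_le_card (f := fun v => v 2) hr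
  have hxy : ∀ v ∈ z3, v 0 + v 1 ≤ 1 := fun v hv => atom_three (hat3 v hv) (h3 v hv)
  have b3 := sum_le_card (f := fun v => v 0 + v 1) hxy
  have b3' : (z3.map (fun v => v 0 + v 1)).sum = (z3.map (fun v => v 0)).sum +
      (z3.map (fun v => v 1)).sum := Multiset.sum_map_add
  have ht : zr.card = 1 ∨ zr.card = 2 := by
    rcases Nat.lt_or_ge zr.card 1 with h | h
    · have : zr = 0 := Multiset.card_eq_zero.1 (by omega)
      rw [this] at s2 hc
      simp at s2 hc
      omega
    · omega
  rcases ht with ht | ht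
  · obtain ⟨α, rfl⟩ := Multiset.card_eq_one.1 ht
    simp only [Multiset.map_singleton, Multiset.sum_singleton] at s0 s1 s2
    have hα := hatr α (Multiset.mem_singleton_self α)
    have hα2 : α 2 = 1 := by omega
    have hz3 : z3.card = k := by omega
    have hbig : k ≤ α 0 + α 1 := by omega
    have hor : α 0 = 0 ∨ α 1 = 0 := by
      by_contra hcon
      have := atom_one hα hα2 (by omega) (by omega)
      omega
    rcases hor with h0 | h1
    · right
      have hone := all_one (f := fun v => v 0) z3 (fun v hv => by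
        have := hxy v hv
        omega) (by omega)
      have hrep : z3 = Multiset.replicate k B2 := by
        rw [Multiset.eq_replicate]
        refine ⟨hz3, fun v hv => ?_⟩
        have u1 := hone v hv
        have u2 := hxy v hv
        have u3 := h3 v hv
        ext i
        fin_cases i
        · simpa [B2] using u1
        · simp [B2]; omega
        · simpa [B2] using u3
      have hz1 : (z3.map (fun v => v 1)).sum = 0 := by omega
      have hαe : α = A2 k := by
        ext i
        fin_cases i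
        · simpa [A2] using h0
        · simp [A2]; omega
        · simpa [A2] using hα2
      rw [hzz, hrep, hαe, z2, add_comm, Multiset.singleton_add]
    · left
      have hone := all_one (f := fun v => v 1) z3 (fun v hv => by
        have := hxy v hv
        omega) (by omega)
      have hrep : z3 = Multiset.replicate k B1 := by
        rw [Multiset.eq_replicate]
        refine ⟨hz3, fun v hv => ?_⟩
        have u1 := hone v hv
        have u2 := hxy v hv
        have u3 := h3 v hv
        ext i
        fin_cases i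
        · simp [B1]; omega
        · simpa [B1] using u1
        · simpa [B1] using u3
      have hz1 : (z3.map (fun v => v 0)).sum = 0 := by omega
      have hαe : α = A1 k := by
        ext i
        fin_cases i
        · simp [A1]; omega
        · simpa [A1] using h1
        · simpa [A1] using hα2
      rw [hzz, hrep, hαe, z1, add_comm, Multiset.singleton_add]
  · exfalso
    obtain ⟨α, β, rfl⟩ := Multiset.card_eq_two.1 ht
    have hα := hatr α (by simp)
    have hβ := hatr β (by simp)
    have ha2 := hr α (by simp)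
    have hb2 := hr β (by simp)
    simp only [Multiset.insert_eq_cons, Multiset.map_cons, Multiset.map_singleton,
      Multiset.sum_cons, Multiset.sum_singleton] at s0 s1 s2
    have hα2 : α 2 = 2 := by omega
    have hβ2 : β 2 = 2 := by omega
    have u1 := atom_two hα hα2
    have u2 := atom_two hβ hβ2
    omega

lemma cEqAt_ge {k : ℕ} (hk : 6 ≤ k) : ((k + 1 : ℕ) : ℕ∞) ≤ cEqAt HH (ak k) := by
  apply le_sInf
  intro N hN
  obtain ⟨r, s, hs0, hsr, hs, hd, hm⟩ := hN (z1 k) (z1_mem (by omega)) (z2 k) (z2_mem (by omega))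
    (by rw [z1_card, z2_card])
  -- all lengths are equal
  have hlen : ∀ i ≤ r, (s i).card = k + 1 := by
    rcases hm with hm | hm
    · have h1 : ∀ i ≤ r, k + 1 ≤ (s i).card := by
        intro i
        induction i with
        | zero => intro _; rw [hs0, z1_card]
        | succ i ih => intro hi; exact (ih (by omega)).trans (hm i (by omega))
      have h2 : ∀ j ≤ r, (s (r - j)).card ≤ k + 1 := by
        intro j
        induction j with
        | zero => intro _; rw [Nat.sub_zero, hsr, z2_card]
        | succ j ih =>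
          intro hj
          have := hm (r - (j + 1)) (by omega)
          rw [show r - (j + 1) + 1 = r - j by omega] at this
          exact this.trans (ih (by omega))
      intro i hi
      have := h2 (r - i) (by omega)
      rw [show r - (r - i) = i by omega] at this
      exact le_antisymm this (h1 i hi)
    · have h1 : ∀ i ≤ r, (s i).card ≤ k + 1 := by
        intro i
        induction i with
        | zero => intro _; rw [hs0, z1_card]
        | succ i ih => intro hi; exact (hm i (by omega)).trans (ih (by omega))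
      have h2 : ∀ j ≤ r, k + 1 ≤ (s (r - j)).card := by
        intro j
        induction j with
        | zero => intro _; rw [Nat.sub_zero, hsr, z2_card]
        | succ j ih =>
          intro hj
          have := hm (r - (j + 1)) (by omega)
          rw [show r - (j + 1) + 1 = r - j by omega] at this
          exact (ih (by omega)).trans this
      intro i hi
      have := h2 (r - i) (by omega)
      rw [show r - (r - i) = i by omega] at this
      exact le_antisymm (h1 i hi) this
  have hne : z1 k ≠ z2 k := by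
    intro h
    have hmem : A1 k ∈ z1 k ∩ z2 k := by
      rw [← h]
      exact Multiset.mem_inter.2 ⟨Multiset.mem_cons_self _ _, Multiset.mem_cons_self _ _⟩
    rw [disj (by omega)] at hmem
    simp at hmem
  have hex : ∃ i < r, s i = z1 k ∧ s (i + 1) = z2 k := by
    by_contra hcon
    push Not at hcon
    have : ∀ i ≤ r, s i = z1 k := by
      intro i
      induction i with
      | zero => intro _; exact hs0
      | succ i ih =>
        intro hi
        rcases rigid hk (hs (i + 1) hi) (hlen (i + 1) hi) with h | h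
        · exact h
        · exact absurd h (hcon i (by omega) (ih (by omega)))
    exact hne ((this r le_rfl).symm.trans hsr)
  obtain ⟨i, hi, h1, h2⟩ := hex
  have h3 := hd i hi
  rw [h1, h2] at h3
  refine le_trans ?_ h3
  have : k + 1 ≤ dist (z1 k) (z2 k) := by
    unfold dist
    rw [disj (by omega), Multiset.sub_zero, z1_card]
    exact le_max_left _ _
  exact_mod_cast this

/-- **Answer to Q1 (negative)**: there is a conductor submonoid of the free abelian monoid `ℕ³`
whose monotone catenary degree is infinite. -/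
theorem result : ∃ H : AddSubmonoid (Fin 3 → ℕ), IsConductor H ∧ cMon H = ⊤ := by
  refine ⟨HH, conductor, ?_⟩
  rw [cMon]
  apply le_antisymm le_top
  refine le_trans ?_ (le_max_left _ _)
  rw [ENat.forall_natCast_le_iff_le.symm]
  intro n _
  have h1 : ((n + 7 : ℕ) : ℕ∞) ≤ cEqAt HH (ak (n + 6)) := cEqAt_ge (k := n + 6) (by omega)
  have h2 : cEqAt HH (ak (n + 6)) ≤ cEq HH := by
    unfold cEq
    exact le_iSup₂_of_le (ak (n + 6)) (Or.inr (by
      simp only [InI, ak, Matrix.cons_val_zero, Matrix.cons_val_one, Matrix.cons_val]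
      omega)) le_rfl
  refine le_trans ?_ (h1.trans h2)
  exact_mod_cast (by omega : n ≤ n + 7)

end Pool.Agent.Results.MP_d1ccd0_al.MonotoneCatenary
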